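import Pool.Agent.H992.LR.Top

/-!
# MP_a825e8_mp: quadratic level repulsion for random conformal metrics

`(M, g)` is a connected closed surface with a continuous Riemannian metric which is given in
isothermal charts (every smooth metric has such charts), for instance a surface of negative
curvature. For `φ` in `C(M)` let `x φ 0 ≤ x φ 1 ≤ ...` be the unfolded levels of the metric
`exp φ · g`: the eigenvalues of its Laplacian times `area / (4 π)`.

The GOE statistics differ from the Poisson statistics by the level repulsion: for the GOE the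
probability of a gap `≤ s` is of the order `s ^ 2`, and the mean number of pairs of levels at
distance `≤ s` is of the order `s ^ 2`; for Poisson levels both are of the order `s`.

We prove the GOE bounds for random conformal metrics. Let `P` be a finite Borel measure on `C(M)`
which has bounded densities in pairs of directions `h, h'` which span a dense subspace (`P` is at most
a finite measure convolved with the uniform law on the parallelogram `t h + t' h'`, `0 ≤ t, t' ≤ 1`).
Then for every compact set `K` of conformal factors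

* for every `j` there is `C` with `P (φ ∈ K, x φ (j + 1) - x φ j ≤ s) ≤ C s ^ 2` for all `s > 0`;
* `(x φ (j + 1) - x φ j) ^ (-p)` is integrable on `K` for every `p < 2`;
* for every height `T` the pair correlation measure and the measure of the nearest neighbour spacings
  at height `T`, averaged over the random metric, have at most the mass `C s ^ 2` on `[- s, s]`.

For a random series `φ = φ₀ + ∑ ξ n h n` with independent bounded coefficients `ξ n` with bounded
densities, `∑ ‖h n‖ < ∞` and `h n` with dense span, this holds on the whole probability space. If `g` is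
smooth and negatively curved and the functions `h n` are smooth and small then `exp φ · g` is smooth
and negatively curved for all values of the coefficients.

Idea of the proof. In dimension two the Dirichlet integral does not depend on `φ`. By Ky Fan's
inequality for the sum `T φ` of the first `m` inverse positive eigenvalues and by the trial space in
which the last eigenvector is replaced by the best rotation of the last two ones, for directions `h, h'`,

`T (φ + τ h + τ' h') ≥ T φ - s + p ⬝ (τ, τ') + c |(τ, τ')| - C |(τ, τ')|²`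

if the gap of the inverse eigenvalues is at most `s` and if the masses of the eigenfunctions in the
directions `h, h'` are nondegenerate: `T` has an upward cone over an affine function. At two such
points the slopes `p` differ by a fixed amount, unless the points are within `4 s / c`. So the set of
such points in the plane of `h, h'` is covered by finitely many discs of radius `C s` and has area
`≤ C s ^ 2`. The masses are nondegenerate near each metric with `x (j + 1) = x j`: otherwise a
traceless quadratic form of two orthonormal eigenfunctions `u, v` of one eigenvalue vanishes, this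
form is a product of two eigenfunctions, and one of them vanishes on an open set, which contradicts
the unique continuation theorem (which we derive for continuous metrics in isothermal charts).
-/

set_option autoImplicit false

open Set Filter Topology MeasureTheory ProbabilityTheory
open scoped Real NNReal ENNReal
open Pool.Agent.Y262.QE

noncomputable section

namespace Pool.Agent.Results.MP_a825e8_mp.LevelRepulsion

/-- `u 0, u 1, ...` is an orthonormal basis of `L² (μ)` which consists of eigenfunctions of the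
Laplacian of the surface `D` with the area `μ`; the eigenvalues `lam 0 ≤ lam 1 ≤ ...` are ordered -/
structure IsEigenbasis {M : Type} [MeasurableSpace M] (D : Data M) (μ : Measure M)
    (u : ℕ → M → ℝ) (lam : ℕ → ℝ) : Prop where
  eig : ∀ j, D.IsEig μ (lam j) (u j)
  mono : Monotone lam
  orth : ∀ i j, ∫ x, u i x * u j x ∂μ = if i = j then 1 else 0
  total : ∀ f : M → ℝ, MemLp f 2 μ → (∀ j, ∫ x, f x * u j x ∂μ = 0) → f =ᵐ[μ] 0

/-- the surface with the metric `exp φ · g` -/
def surf {M : Type} [TopologicalSpace M] (D : Data M) (φ : C(M, ℝ)) : Data M :=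
  D.conf fun x => Real.exp (φ x)

/-- the area of the metric `exp φ · g` -/
def area {M : Type} [TopologicalSpace M] [MeasurableSpace M] (μ : Measure M) (φ : C(M, ℝ)) :
    Measure M :=
  wm μ fun x => Real.exp (φ x)

/-- the charts of the surface are isothermal: the metric at each point of a chart is a multiple of
the Euclidean metric -/
def Isothermal {M : Type} (D : Data M) : Prop :=
  ∀ i, ∀ z ∈ D.T i, ∃ c : ℝ, ∀ v, ‖D.A i z v‖ = c * ‖v‖

/-- `x` is the sequence of the unfolded levels of the metric `exp φ · g`: the eigenvalues, listed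
with multiplicity, times the total area divided by `4 π` -/
def IsUnfolded {M : Type} [TopologicalSpace M] [MeasurableSpace M] (D : Data M) (μ : Measure M)
    (φ : C(M, ℝ)) (x : ℕ → ℝ) : Prop :=
  ∃ (u : ℕ → M → ℝ) (lam : ℕ → ℝ), IsEigenbasis (surf D φ) (area μ φ) u lam ∧
    ∀ k, x k = (area μ φ).real univ / (4 * π) * lam k

/-- the number of the levels `x k ≤ T` -/
def number (T : ℝ) (x : ℕ → ℝ) : ℕ := Set.ncard {k : ℕ | x k ≤ T}

open Classical in
/-- the pair correlation measure at height `T`: the measure `(1/T) ∑ δ (x j - x k)`, the sum over the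
pairs `j ≠ k` with `x j, x k ≤ T` -/
def pairCorrelation (T : ℝ) (x : ℕ → ℝ) : Measure ℝ :=
  ENNReal.ofReal (1 / T) • ∑ p ∈ (Finset.range (number T x) ×ˢ Finset.range (number T x)).filter
    (fun p => p.1 ≠ p.2), Measure.dirac (x p.1 - x p.2)

/-- the measure of the nearest neighbour spacings at height `T`: `(1/T) ∑ δ (x (k+1) - x k)`, the sum
over the `k` with `x k ≤ T` -/
def spacings (T : ℝ) (x : ℕ → ℝ) : Measure ℝ :=
  ENNReal.ofReal (1 / T) • ∑ k ∈ Finset.range (number T x), Measure.dirac (x (k + 1) - x k)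

/-- `P` has a bounded density in the directions `h, h'`: it is at most the law of `ψ + t h + t' h'`
where `ψ` has the finite law `Q` and `(t, t')` is independent of `ψ` and uniform in the unit square -/
def BoundedAlong {V : Type} [AddCommGroup V] [Module ℝ V] [MeasurableSpace V] (P : Measure V)
    (h h' : V) : Prop :=
  ∃ Q : Measure V, IsFiniteMeasure Q ∧ P ≤ (Q.prod (volume.restrict
    (Icc (0 : ℝ) 1 ×ˢ Icc (0 : ℝ) 1))).map fun q => q.1 + q.2.1 • h + q.2.2 • h'

/-- quadratic level repulsion for the random levels `x φ`, `φ` with the law `P` -/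
structure Repels {V : Type} [MeasurableSpace V] (x : V → ℕ → ℝ) (P : Measure V) : Prop where
  /-- the probability of a gap `≤ s` is at most `C s ^ 2` -/
  gap : ∀ j, ∃ C : ℝ, ∀ s : ℝ, 0 < s →
    P {φ | x φ (j + 1) - x φ j ≤ s} ≤ ENNReal.ofReal (C * s ^ 2)
  /-- the negative moments of the gaps are finite up to the exponent `2` -/
  moment : ∀ j, ∀ p : ℝ, 0 < p → p < 2 →
    ∫⁻ φ, ENNReal.ofReal (x φ (j + 1) - x φ j) ^ (-p) ∂P < ⊤
  /-- the mean pair correlation measure of `[- s, s]` is at most `C s ^ 2` -/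
  pair : ∀ T : ℝ, ∃ C : ℝ, ∀ s : ℝ, 0 < s →
    ∫⁻ φ, pairCorrelation T (x φ) (Icc (-s) s) ∂P ≤ ENNReal.ofReal (C * s ^ 2)
  /-- the mean measure of the spacings `≤ s` is at most `C s ^ 2` -/
  spac : ∀ T : ℝ, ∃ C : ℝ, ∀ s : ℝ, 0 < s →
    ∫⁻ φ, spacings T (x φ) (Icc (-s) s) ∂P ≤ ENNReal.ofReal (C * s ^ 2)

lemma number_le {T : ℝ} {x : ℕ → ℝ} (hx : Monotone x) {N : ℕ} (hN : T < x N) :
    number T x ≤ N := by
  have h1 : {k : ℕ | x k ≤ T} ⊆ (Finset.range N : Set ℕ) := by
    intro k hk
    rw [Finset.coe_range, mem_Iio]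
    by_contra h
    have h2 : x N ≤ x k := hx (not_lt.1 h)
    have h3 : x k ≤ T := hk
    linarith
  have h2 := Set.ncard_le_ncard h1 (Finset.finite_toSet _)
  rwa [Set.ncard_coe_finset, Finset.card_range] at h2

open Classical in
lemma dirac_le {x : ℕ → ℝ} (hx : Monotone x) {N j k : ℕ} (hj : j < N) (hk : k < N) (hjk : j ≠ k)
    (s : ℝ) : Measure.dirac (x j - x k) (Icc (-s) s) ≤
      ∑ i ∈ Finset.range N, if x (i + 1) - x i ≤ s then (1 : ℝ≥0∞) else 0 := by
  rw [Measure.dirac_apply' _ measurableSet_Icc]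
  by_cases h : x j - x k ∈ Icc (-s) s
  · rw [indicator_of_mem h, Pi.one_apply]
    obtain ⟨l, hl, hls⟩ : ∃ l < N, x (l + 1) - x l ≤ s := by
      rcases lt_or_gt_of_ne hjk with h1 | h1
      · refine ⟨j, hj, ?_⟩
        have h2 : x (j + 1) ≤ x k := hx (by omega)
        linarith [h.1]
      · refine ⟨k, hk, ?_⟩
        have h2 : x (k + 1) ≤ x j := hx (by omega)
        linarith [h.2]
    refine le_trans (le_of_eq ?_) (Finset.single_le_sum (fun _ _ => zero_le)
      (Finset.mem_range.2 hl))
    rw [if_pos hls]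
  · rw [indicator_of_notMem h]
    exact zero_le

open Classical in
lemma pair_le {x : ℕ → ℝ} (hx : Monotone x) {T : ℝ} {N : ℕ} (hN : T < x N) (s : ℝ) :
    pairCorrelation T x (Icc (-s) s) ≤ ENNReal.ofReal (|1 / T| * (N * N : ℕ)) *
      ∑ i ∈ Finset.range N, if x (i + 1) - x i ≤ s then (1 : ℝ≥0∞) else 0 := by
  unfold pairCorrelation
  have hn := number_le hx hN
  rw [Measure.smul_apply, Measure.finsetSum_apply, smul_eq_mul,
    ENNReal.ofReal_mul (abs_nonneg _), mul_assoc]
  refine mul_le_mul' (ENNReal.ofReal_le_ofReal (le_abs_self _)) ?_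
  rw [ENNReal.ofReal_natCast, ← nsmul_eq_mul]
  refine (Finset.sum_le_card_nsmul _ _ _ fun p hp => ?_).trans
    (nsmul_le_nsmul_left (zero_le) (?_ : _ ≤ N * N))
  · obtain ⟨h1, h2⟩ := Finset.mem_filter.1 hp
    obtain ⟨h3, h4⟩ := Finset.mem_product.1 h1
    exact dirac_le hx ((Finset.mem_range.1 h3).trans_le hn) ((Finset.mem_range.1 h4).trans_le hn)
      h2 s
  · refine (Finset.card_filter_le _ _).trans ?_
    rw [Finset.card_product, Finset.card_range]
    exact Nat.mul_le_mul hn hn

open Classical in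
lemma spac_le {x : ℕ → ℝ} (hx : Monotone x) {T : ℝ} {N : ℕ} (hN : T < x N) (s : ℝ) :
    spacings T x (Icc (-s) s) ≤ ENNReal.ofReal |1 / T| *
      ∑ i ∈ Finset.range N, if x (i + 1) - x i ≤ s then (1 : ℝ≥0∞) else 0 := by
  unfold spacings
  have hn := number_le hx hN
  rw [Measure.smul_apply, Measure.finsetSum_apply, smul_eq_mul]
  refine mul_le_mul' (ENNReal.ofReal_le_ofReal (le_abs_self _)) ?_
  refine (Finset.sum_le_sum_of_subset (Finset.range_mono hn)).trans
    (Finset.sum_le_sum fun i _ => ?_)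
  rw [Measure.dirac_apply' _ measurableSet_Icc]
  by_cases h : x (i + 1) - x i ∈ Icc (-s) s
  · rw [indicator_of_mem h, if_pos h.2, Pi.one_apply]
  · rw [indicator_of_notMem h]
    exact zero_le

/-- the consequences of the bound for the gaps -/
lemma repels {V : Type} [TopologicalSpace V] [MeasurableSpace V] [BorelSpace V] {X : V → ℕ → ℝ}
    (hc : ∀ k, Continuous fun φ => X φ k) (hm : ∀ φ, Monotone (X φ))
    (ht : ∀ φ, Tendsto (X φ) atTop atTop) (P : Measure V) [IsFiniteMeasure P] {K : Set V}
    (hK : IsCompact K) (hPK : ∀ᵐ φ ∂P, φ ∈ K)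
    (h : ∀ j, ∃ C : ℝ, 0 ≤ C ∧ ∀ s : ℝ, 0 ≤ s →
      P {φ | X φ (j + 1) - X φ j ≤ s} ≤ ENNReal.ofReal (C * s ^ 2)) : Repels X P := by
  classical
  choose C hC hCs using h
  have hmeas : ∀ k, Measurable fun φ => X φ k := fun k => (hc k).measurable
  have hind : ∀ (s : ℝ) (φ : V) (j : ℕ), (if X φ (j + 1) - X φ j ≤ s then (1 : ℝ≥0∞) else 0) =
      {φ | X φ (j + 1) - X φ j ≤ s}.indicator (fun _ => (1 : ℝ≥0∞)) φ := by
    intro s φ j
    by_cases h : X φ (j + 1) - X φ j ≤ s
    · rw [if_pos h, indicator_of_mem (show φ ∈ {φ | X φ (j + 1) - X φ j ≤ s} from h)]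
    · rw [if_neg h, indicator_of_notMem (show φ ∉ {φ | X φ (j + 1) - X φ j ≤ s} from h)]
  refine ⟨fun j => ⟨C j, fun s hs => hCs j s hs.le⟩, fun j p hp0 hp => ?_, fun T => ?_,
    fun T => ?_⟩
  · exact Pool.Agent.H992.LR.neg_moment P ((hmeas (j + 1)).sub (hmeas j)) (hC j) (hCs j) hp0 hp
  · obtain ⟨N, hN⟩ := Pool.Agent.H992.LR.count_bound hc hm ht hK T
    refine ⟨_, fun s hs => Pool.Agent.H992.LR.sum_bound P hmeas hC hCs
      (|1 / T| * (N * N : ℕ)) (by positivity) N s hs.le _ ?_⟩
    filter_upwards [hPK] with φ hφ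
    simp only [← hind]
    exact pair_le (hm φ) (hN φ hφ) s
  · obtain ⟨N, hN⟩ := Pool.Agent.H992.LR.count_bound hc hm ht hK T
    refine ⟨_, fun s hs => Pool.Agent.H992.LR.sum_bound P hmeas hC hCs
      |1 / T| (abs_nonneg _) N s hs.le _ ?_⟩
    filter_upwards [hPK] with φ hφ
    simp only [← hind]
    exact spac_le (hm φ) (hN φ hφ) s

lemma bounded_iff {V : Type} [NormedAddCommGroup V] [NormedSpace ℝ V] [MeasurableSpace V]
    [BorelSpace V] [SecondCountableTopology V] {P : Measure V} {h h' : V}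
    (hP : BoundedAlong P h h') : Pool.Agent.H992.LR.BoundedAlong P ![h, h'] := by
  obtain ⟨Q, hQ, hPQ⟩ := hP
  refine ⟨Q, hQ, hPQ.trans (le_of_eq ?_)⟩
  have h1 : (volume.restrict (Icc (0 : ℝ) 1 ×ˢ Icc (0 : ℝ) 1)) =
      (volume.restrict (Icc (0 : Fin 2 → ℝ) 1)).map (MeasurableEquiv.finTwoArrow (α := ℝ)) := by
    have h2 := (volume_preserving_finTwoArrow ℝ).restrict_preimage
      (measurableSet_Icc.prod measurableSet_Icc : MeasurableSet (Icc (0 : ℝ) 1 ×ˢ Icc (0 : ℝ) 1))
    have h3 : (MeasurableEquiv.finTwoArrow (α := ℝ)) ⁻¹' (Icc (0 : ℝ) 1 ×ˢ Icc (0 : ℝ) 1) =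
        Icc (0 : Fin 2 → ℝ) 1 := by
      ext t
      simp only [mem_preimage, mem_prod, mem_Icc, Pi.le_def, Fin.forall_fin_two, Pi.zero_apply,
        Pi.one_apply, MeasurableEquiv.finTwoArrow_apply]
      tauto
    rw [h3] at h2
    exact h2.map_eq.symm
  have hm1 : Measurable fun q : V × (ℝ × ℝ) => q.1 + q.2.1 • h + q.2.2 • h' := by fun_prop
  have h4 : Q.prod (volume.restrict (Icc (0 : ℝ) 1 ×ˢ Icc (0 : ℝ) 1)) =
      (Q.prod (volume.restrict (Icc (0 : Fin 2 → ℝ) 1))).map
        (Prod.map id (MeasurableEquiv.finTwoArrow (α := ℝ))) := by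
    rw [h1, ← Measure.map_prod_map _ _ measurable_id (MeasurableEquiv.measurable _), Measure.map_id]
  rw [h4, Measure.map_map hm1 (measurable_id.prodMap (MeasurableEquiv.measurable _))]
  congr 1
  funext q
  simp only [Function.comp_apply, MeasurableEquiv.finTwoArrow_apply, Fin.sum_univ_two,
    Matrix.cons_val_zero, Matrix.cons_val_one, add_assoc]
  rfl

theorem result (M : Type) [MetricSpace M] [CompactSpace M] [ConnectedSpace M] [MeasurableSpace M]
    [BorelSpace M] (μ : Measure M) (D : Data M) (hD : D.IsSurf μ) (hI : Isothermal D) :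
    -- the unfolded levels exist
    (∀ φ : C(M, ℝ), (surf D φ).IsSurf (area μ φ) ∧ ∃ x, IsUnfolded D μ φ x) ∧
    ∀ x : C(M, ℝ) → ℕ → ℝ, (∀ φ, IsUnfolded D μ φ (x φ)) →
      ∀ [MeasurableSpace C(M, ℝ)] [BorelSpace C(M, ℝ)],
      -- general laws, on compact sets of conformal factors
      (∀ (P : Measure C(M, ℝ)) [IsFiniteMeasure P] (S : Set C(M, ℝ)),
        Dense (Submodule.span ℝ S : Set C(M, ℝ)) →
        (∀ h ∈ S, ∀ h' ∈ S, h ≠ h' → BoundedAlong P h h') →
          ∀ K : Set C(M, ℝ), IsCompact K → Repels x (P.restrict K)) ∧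
      -- random series
      ∀ (Ω : Type) [MeasurableSpace Ω] (Pr : Measure Ω) [IsProbabilityMeasure Pr]
        (ξ : ℕ → Ω → ℝ), (∀ n, Measurable (ξ n)) → iIndepFun ξ Pr → (∀ n ω, |ξ n ω| ≤ 1) →
        (∀ n, ∃ c : ℝ≥0, Pr.map (ξ n) ≤ c • volume) →
        ∀ (φ₀ : C(M, ℝ)) (h : ℕ → C(M, ℝ)), Summable (fun n => ‖h n‖) →
          Dense (Submodule.span ℝ (range h) : Set C(M, ℝ)) →
            Repels x (Pr.map fun ω => φ₀ + ∑' n, ξ n ω • h n) := by
  obtain ⟨hf, -⟩ := tFin M μ D hD
  have := hf
  have : Nonempty M := inferInstance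
  obtain ⟨X, hXc, hXm, hXt, hXe, hX⟩ := Pool.Agent.H992.LR.surf_gap μ D hD hI
  refine ⟨fun φ => ⟨(tConf M μ D hD _
    (Real.continuous_exp.comp φ.continuous) fun x => Real.exp_pos _).1, ?_⟩, ?_⟩
  · obtain ⟨u, lam, h⟩ := Pool.Agent.Y264.QR.tEx M μ D hD inferInstance φ
    exact ⟨fun k => (area μ φ).real univ / (4 * π) * lam k, u, lam,
      ⟨h.eig, h.mono, h.orth, h.total⟩, fun k => rfl⟩
  intro x hx _ _
  have hxX : x = X := by
    funext φ k
    obtain ⟨u, lam, hu, hxk⟩ := hx φ
    rw [hxk, hXe φ u lam ⟨hu.eig, hu.mono, hu.orth, hu.total⟩ k]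
    rfl
  rw [hxX]
  have hmain : ∀ (P : Measure C(M, ℝ)) [IsFiniteMeasure P] (S : Set C(M, ℝ)),
      Dense (Submodule.span ℝ S : Set C(M, ℝ)) →
      (∀ h ∈ S, ∀ h' ∈ S, h ≠ h' → Pool.Agent.H992.LR.BoundedAlong P ![h, h']) →
      ∀ K : Set C(M, ℝ), IsCompact K → Repels X (P.restrict K) := by
    intro P _ S hS hP K hK
    refine repels hXc hXm hXt (P.restrict K) hK (ae_restrict_mem hK.measurableSet) fun j => ?_
    obtain ⟨C, hC, hCs⟩ := hX P S hS hP K hK j
    refine ⟨C, hC, fun s hs => ?_⟩
    rw [Measure.restrict_apply' hK.measurableSet, inter_comm]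
    exact hCs s hs
  refine ⟨fun P _ S hS hP K hK => hmain P S hS
    (fun h hh h' hh' hne => bounded_iff (hP h hh h' hh' hne)) K hK, ?_⟩
  intro Ω _ Pr _ ξ hξm hξi hξb hξd φ₀ h hh hd
  -- coefficients in the unit interval
  obtain ⟨η, hη⟩ : ∃ η : ℕ → Ω → ℝ, η = fun n ω => (ξ n ω + 1) / 2 := ⟨_, rfl⟩
  obtain ⟨g, hg⟩ : ∃ g : ℕ → C(M, ℝ), g = fun n => (2 : ℝ) • h n := ⟨_, rfl⟩
  obtain ⟨ψ, hψ⟩ : ∃ ψ : C(M, ℝ), ψ = φ₀ - ∑' n, h n := ⟨_, rfl⟩
  have hm2 : Measurable fun t : ℝ => (t + 1) / 2 := by fun_prop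
  have hηm : ∀ n, Measurable (η n) := fun n => by
    rw [hη]; exact hm2.comp (hξm n)
  have hηi : iIndepFun η Pr := by
    rw [hη]
    exact hξi.comp (fun _ t => (t + 1) / 2) fun _ => hm2
  have hηb : ∀ n ω, η n ω ∈ Icc (0 : ℝ) 1 := fun n ω => by
    have := abs_le.1 (hξb n ω)
    rw [hη]
    constructor
    · simp only; linarith
    · simp only; linarith
  have hηd : ∀ n, ∃ c : ℝ≥0, Pr.map (η n) ≤ c • volume := by
    intro n
    obtain ⟨c, hc⟩ := hξd n
    refine ⟨2 * c, ?_⟩
    have h1 := Pool.Agent.H992.LR.law_half hc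
    rw [Measure.map_map hm2 (hξm n)] at h1
    rw [hη]
    exact h1
  have hgs : Summable fun n => ‖g n‖ := by
    rw [hg]
    simp only [norm_smul]
    exact hh.mul_left _
  have hser : (fun ω => φ₀ + ∑' n, ξ n ω • h n) = fun ω => ψ + ∑' n, η n ω • g n := by
    funext ω
    have s1 : Summable fun n => ξ n ω • h n := Summable.of_norm_bounded hh fun n => by
      rw [norm_smul, Real.norm_eq_abs]
      have := hξb n ω
      have := norm_nonneg (h n)
      nlinarith
    have s2 : Summable h := hh.of_norm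
    have e1 : ∀ n, η n ω • g n = ξ n ω • h n + h n := by
      intro n
      rw [hη, hg]
      simp only
      rw [smul_smul, div_mul_cancel₀ _ (two_ne_zero), add_smul, one_smul]
    rw [tsum_congr e1, s1.tsum_add s2, hψ]
    abel
  rw [hser]
  obtain ⟨Φ, hΦ⟩ : ∃ Φ : Ω → C(M, ℝ), Φ = fun ω => ψ + ∑' n, η n ω • g n := ⟨_, rfl⟩
  have hηa : ∀ n ω, |η n ω| ≤ 1 := fun n ω => by
    rw [abs_of_nonneg (hηb n ω).1]; exact (hηb n ω).2
  have hΦm : Measurable Φ := by
    rw [hΦ]
    exact Pool.Agent.H992.LR.series_meas η hηm hηa ψ g hgs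
  rw [← hΦ]
  have hfin : IsFiniteMeasure (Pr.map Φ) := by
    have := Measure.isProbabilityMeasure_map (μ := Pr) hΦm.aemeasurable
    infer_instance
  obtain ⟨K, hK⟩ : ∃ K : Set C(M, ℝ),
      K = range fun t : ℕ → Icc (0 : ℝ) 1 => ψ + ∑' n, (t n : ℝ) • g n := ⟨_, rfl⟩
  have hKc : IsCompact K := by
    rw [hK]
    exact Pool.Agent.H992.LR.series_compact ψ g hgs
  have hKΦ : ∀ᵐ φ ∂(Pr.map Φ), φ ∈ K := by
    have h1 : MeasurableSet {φ | φ ∈ K} := hKc.measurableSet
    refine (ae_map_iff hΦm.aemeasurable h1).2 (Eventually.of_forall fun ω => ?_)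
    rw [hK, hΦ]
    exact ⟨fun n => ⟨η n ω, hηb n ω⟩, rfl⟩
  rw [← Measure.restrict_eq_self_of_ae_mem hKΦ]
  refine hmain (Pr.map Φ) (range g) ?_ ?_ K hKc
  · have h1 : Submodule.span ℝ (range h) ≤ Submodule.span ℝ (range g) := by
      refine Submodule.span_le.2 ?_
      rintro _ ⟨n, rfl⟩
      have h2 : h n = (1 / 2 : ℝ) • g n := by
        rw [hg]
        simp only
        rw [smul_smul]
        norm_num
      rw [h2]
      exact Submodule.smul_mem _ _ (Submodule.subset_span (mem_range_self n))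
    exact hd.mono h1
  · rintro _ ⟨p, rfl⟩ _ ⟨q, rfl⟩ hpq
    have hpq' : p ≠ q := fun h => hpq (by rw [h])
    have h1 := Pool.Agent.H992.LR.series_bounded Pr η hηm hηi hηb hηd ψ g hgs ![p, q] (by
      intro i j hij
      fin_cases i <;> fin_cases j
      · rfl
      · exact absurd hij hpq'
      · exact absurd hij.symm hpq'
      · rfl)
    have h2 : (fun i => g ((![p, q] : Fin 2 → ℕ) i)) = ![g p, g q] := by
      funext i
      fin_cases i <;> rfl
    rw [h2] at h1
    rw [hΦ]
    exact h1

end Pool.Agent.Results.MP_a825e8_mp.LevelRepulsion
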