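import Pool.Agent.H992.LR.Cl5

/-!
# MP_a825e8_mp: three close levels of random conformal metrics

`(M, g)` is a connected closed surface with a continuous Riemannian metric which is given in
isothermal charts (every smooth metric has such charts), for instance a surface of negative
curvature. For `φ` in `C(M)` let `x φ 0 ≤ x φ 1 ≤ ...` be the unfolded levels of the metric
`exp φ · g`: the eigenvalues of its Laplacian times `area / (4 π)`.

For the GOE the probability that three consecutive levels lie in an interval of length `s` is of the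
order `s ^ 5` (the matrices with a triple eigenvalue have codimension `5`), and the three point
correlation measure of `[- s, s] ²` is of the order `s ^ 5`; for Poisson levels both are of the order
`s ^ 2`.

We prove the GOE bounds for random conformal metrics. Let `P` be a finite Borel measure on `C(M)`
which has bounded densities in all families of five directions `h 0, ..., h 4` of a set which spans a
dense subspace (`P` is at most a finite measure convolved with the uniform law on the parallelotope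
`∑ t j • h j`, `0 ≤ t j ≤ 1`). Then for every compact set `K` of conformal factors

* for every `j` there is `C` with `P (φ ∈ K, x φ (j + 2) - x φ j ≤ s) ≤ C s ^ 5` for all `s > 0`;
* `(x φ (j + 2) - x φ j) ^ (-p)` is integrable on `K` for every `p < 5`;
* for every height `T` the probability that some three consecutive levels below `T` are in an interval
  of length `s` is at most `C s ^ 5`;
* for every height `T` the three point correlation measure at height `T`, averaged over the random
  metric, has at most the mass `C s ^ 5` on `[- s, s] ²`.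

For a random series `φ = φ₀ + ∑ ξ n h n` with independent bounded coefficients `ξ n` with bounded
densities, `∑ ‖h n‖ < ∞` and `h n` with dense span, this holds on the whole probability space. If `g` is
smooth and negatively curved and the functions `h n` are smooth and small then `exp φ · g` is smooth
and negatively curved for all values of the coefficients.

Idea of the proof. As for two levels: in the space of five directions the sum `T φ` of the first `m`
inverse positive eigenvalues has at each metric with a narrow cluster of three levels an upward cone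
over an affine function, up to the error `s`; such points have five dimensional volume `≤ C s ^ 5`.
The cone exists if the map from the five directions to the traceless parts of the `3 × 3` matrices of
the masses of the three eigenfunctions is invertible. The new point is that near a triple eigenvalue
such directions exist: otherwise there is a quadratic relation between three orthonormal
eigenfunctions of one eigenvalue. By its diagonal form there are two independent eigenfunctions `u, v`
and an eigenfunction `w` of this eigenvalue with `u v = w²` (or `u v = 0`, which is excluded by unique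
continuation). Apply the Laplacian: the terms of order zero cancel since the three functions satisfy
the same equation, hence `∇u ⬝ ∇v = |∇w|²`; together with `u ∇v + v ∇u = 2 w ∇w` this gives
`|u ∇v - v ∇u|² = 0`, so that `v / u` is constant near a point, and `v = c u` everywhere by unique
continuation.
-/

set_option autoImplicit false

open Set Filter Topology MeasureTheory ProbabilityTheory
open scoped Real NNReal ENNReal
open Pool.Agent.Y262.QE

noncomputable section

namespace Pool.Agent.Results.MP_a825e8_mp.TripleRepulsion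

/-- `u` is an orthonormal basis of real eigenfunctions of the Laplacian of the surface `(D, μ)`, and the
eigenvalues `lam 0 ≤ lam 1 ≤ ...` are ordered -/
structure IsEigenbasis {M : Type} [MeasurableSpace M] (D : Data M) (μ : Measure M)
    (u : ℕ → M → ℝ) (lam : ℕ → ℝ) : Prop where
  eig : ∀ j, D.IsEig μ (lam j) (u j)
  mono : Monotone lam
  orth : ∀ i j, ∫ x, u i x * u j x ∂μ = if i = j then 1 else 0
  total : ∀ f : M → ℝ, MemLp f 2 μ → (∀ j, ∫ x, f x * u j x ∂μ = 0) → f =ᵐ[μ] 0

/-- the surface with the metric `exp φ · g` -/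
def surf {M : Type} [TopologicalSpace M] (D : Data M) (φ : C(M, ℝ)) : Data M :=
  D.conf fun x => Real.exp (φ x)

/-- the area of the metric `exp φ · g` -/
def area {M : Type} [TopologicalSpace M] [MeasurableSpace M] (μ : Measure M) (φ : C(M, ℝ)) :
    Measure M :=
  wm μ fun x => Real.exp (φ x)

/-- the charts of the surface are isothermal: the metric at each point of a chart is a multiple of
the Euclidean metric -/
def Isothermal {M : Type} (D : Data M) : Prop :=
  ∀ i, ∀ z ∈ D.T i, ∃ c : ℝ, ∀ v, ‖D.A i z v‖ = c * ‖v‖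

/-- `x` is the sequence of the unfolded levels of the metric `exp φ · g`: the eigenvalues, listed
with multiplicity, times the total area divided by `4 π` -/
def IsUnfolded {M : Type} [TopologicalSpace M] [MeasurableSpace M] (D : Data M) (μ : Measure M)
    (φ : C(M, ℝ)) (x : ℕ → ℝ) : Prop :=
  ∃ (u : ℕ → M → ℝ) (lam : ℕ → ℝ), IsEigenbasis (surf D φ) (area μ φ) u lam ∧
    ∀ k, x k = (area μ φ).real univ / (4 * π) * lam k

/-- the number of the levels `x k ≤ T` -/
def number (T : ℝ) (x : ℕ → ℝ) : ℕ := Set.ncard {k : ℕ | x k ≤ T}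

open Classical in
/-- the three point correlation measure at height `T`: the measure
`(1/T) ∑ δ (x j - x k, x j - x l)`, the sum over the distinct `j, k, l` with `x j, x k, x l ≤ T` -/
def tripleCorrelation (T : ℝ) (x : ℕ → ℝ) : Measure (ℝ × ℝ) :=
  ENNReal.ofReal (1 / T) • ∑ p ∈ (Finset.range (number T x) ×ˢ Finset.range (number T x) ×ˢ
    Finset.range (number T x)).filter (fun p => p.1 ≠ p.2.1 ∧ p.1 ≠ p.2.2 ∧ p.2.1 ≠ p.2.2),
      Measure.dirac (x p.1 - x p.2.1, x p.1 - x p.2.2)

/-- `P` has a bounded density in the directions `h 0, ..., h 4`: it is at most the law of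
`ψ + ∑ t j • h j` where `ψ` has the finite law `Q` and `t` is independent of `ψ` and uniform in the
unit cube -/
def BoundedAlong {V : Type} [AddCommGroup V] [Module ℝ V] [MeasurableSpace V] (P : Measure V)
    (h : Fin 5 → V) : Prop :=
  ∃ Q : Measure V, IsFiniteMeasure Q ∧
    P ≤ (Q.prod (volume.restrict (Icc (0 : Fin 5 → ℝ) 1))).map fun q => q.1 + ∑ j, q.2 j • h j

/-- the repulsion of three levels with the exponent `5`, for the random levels `x φ`, `φ` with the
law `P` -/
structure TripleRepels {V : Type} [MeasurableSpace V] (x : V → ℕ → ℝ) (P : Measure V) : Prop where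
  /-- the probability that three consecutive levels are in an interval of length `s` -/
  gap : ∀ j, ∃ C : ℝ, ∀ s : ℝ, 0 < s →
    P {φ | x φ (j + 2) - x φ j ≤ s} ≤ ENNReal.ofReal (C * s ^ 5)
  /-- the negative moments are finite up to the exponent `5` -/
  moment : ∀ j, ∀ p : ℝ, 0 < p → p < 5 →
    ∫⁻ φ, ENNReal.ofReal (x φ (j + 2) - x φ j) ^ (-p) ∂P < ⊤
  /-- the probability of a cluster of three levels below the height `T` -/
  window : ∀ T : ℝ, ∃ C : ℝ, ∀ s : ℝ, 0 < s →
    P {φ | ∃ j, x φ j ≤ T ∧ x φ (j + 2) - x φ j ≤ s} ≤ ENNReal.ofReal (C * s ^ 5)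
  /-- the mean three point correlation measure of `[- s, s] ²` -/
  triple : ∀ T : ℝ, ∃ C : ℝ, ∀ s : ℝ, 0 < s →
    ∫⁻ φ, tripleCorrelation T (x φ) (Icc (-s) s ×ˢ Icc (-s) s) ∂P ≤ ENNReal.ofReal (C * s ^ 5)

lemma number_le {T : ℝ} {x : ℕ → ℝ} (hx : Monotone x) {N : ℕ} (hN : T < x N) :
    number T x ≤ N := by
  have h1 : {k : ℕ | x k ≤ T} ⊆ (Finset.range N : Set ℕ) := by
    intro k hk
    rw [Finset.coe_range, mem_Iio]
    by_contra h
    have h2 : x N ≤ x k := hx (not_lt.1 h)
    have h3 : x k ≤ T := hk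
    linarith
  have h2 := Set.ncard_le_ncard h1 (Finset.finite_toSet _)
  rwa [Set.ncard_coe_finset, Finset.card_range] at h2

/-- three distinct numbers -/
lemma three {j k l : ℕ} (h1 : j ≠ k) (h2 : j ≠ l) (h3 : k ≠ l) {x : ℕ → ℝ} (hx : Monotone x)
    {s : ℝ} (h4 : |x j - x k| ≤ s) (h5 : |x j - x l| ≤ s) {N : ℕ} (hj : j < N) (hk : k < N)
    (hl : l < N) : ∃ a < N, x (a + 2) - x a ≤ 2 * s := by
  obtain ⟨a, c, ha, hac, hca⟩ : ∃ a c, a < N ∧ a + 2 ≤ c ∧ x c - x a ≤ 2 * s := by
    have e1 := abs_le.1 h4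
    have e2 := abs_le.1 h5
    rcases lt_or_gt_of_ne h1 with a1 | a1 <;> rcases lt_or_gt_of_ne h2 with a2 | a2 <;>
      rcases lt_or_gt_of_ne h3 with a3 | a3
    · exact ⟨j, l, hj, by omega, by linarith⟩
    · exact ⟨j, k, hj, by omega, by linarith⟩
    · omega
    · exact ⟨l, k, hl, by omega, by linarith⟩
    · exact ⟨k, l, hk, by omega, by linarith⟩
    · omega
    · exact ⟨k, j, hk, by omega, by linarith⟩
    · exact ⟨l, j, hl, by omega, by linarith⟩
  have h6 : x (a + 2) ≤ x c := hx hac
  exact ⟨a, ha, by linarith⟩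

open Classical in
lemma dirac_le {x : ℕ → ℝ} (hx : Monotone x) {N j k l : ℕ} (hj : j < N) (hk : k < N) (hl : l < N)
    (h1 : j ≠ k) (h2 : j ≠ l) (h3 : k ≠ l) (s : ℝ) :
    Measure.dirac (x j - x k, x j - x l) (Icc (-s) s ×ˢ Icc (-s) s) ≤
      ∑ i ∈ Finset.range N, if x (i + 2) - x i ≤ 2 * s then (1 : ℝ≥0∞) else 0 := by
  rw [Measure.dirac_apply' _ (measurableSet_Icc.prod measurableSet_Icc)]
  by_cases h : (x j - x k, x j - x l) ∈ Icc (-s) s ×ˢ Icc (-s) s
  · rw [indicator_of_mem h, Pi.one_apply]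
    obtain ⟨h4, h5⟩ := h
    obtain ⟨a, ha, hs⟩ := three h1 h2 h3 hx (abs_le.2 h4) (abs_le.2 h5) hj hk hl
    refine le_trans (le_of_eq ?_) (Finset.single_le_sum (fun _ _ => zero_le)
      (Finset.mem_range.2 ha))
    rw [if_pos hs]
  · rw [indicator_of_notMem h]
    exact zero_le

open Classical in
lemma triple_le {x : ℕ → ℝ} (hx : Monotone x) {T : ℝ} {N : ℕ} (hN : T < x N) (s : ℝ) :
    tripleCorrelation T x (Icc (-s) s ×ˢ Icc (-s) s) ≤ ENNReal.ofReal (|1 / T| * (N * (N * N) : ℕ)) *
      ∑ i ∈ Finset.range N, if x (i + 2) - x i ≤ 2 * s then (1 : ℝ≥0∞) else 0 := by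
  unfold tripleCorrelation
  have hn := number_le hx hN
  rw [Measure.smul_apply, Measure.finsetSum_apply, smul_eq_mul,
    ENNReal.ofReal_mul (abs_nonneg _), mul_assoc]
  refine mul_le_mul' (ENNReal.ofReal_le_ofReal (le_abs_self _)) ?_
  rw [ENNReal.ofReal_natCast, ← nsmul_eq_mul]
  refine (Finset.sum_le_card_nsmul _ _ _ fun p hp => ?_).trans
    (nsmul_le_nsmul_left (zero_le) (?_ : _ ≤ N * (N * N)))
  · obtain ⟨h1, h2, h3, h4⟩ := Finset.mem_filter.1 hp
    obtain ⟨h5, h6⟩ := Finset.mem_product.1 h1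
    obtain ⟨h7, h8⟩ := Finset.mem_product.1 h6
    exact dirac_le hx ((Finset.mem_range.1 h5).trans_le hn) ((Finset.mem_range.1 h7).trans_le hn)
      ((Finset.mem_range.1 h8).trans_le hn) h2 h3 h4 s
  · refine (Finset.card_filter_le _ _).trans ?_
    rw [Finset.card_product, Finset.card_product, Finset.card_range]
    exact Nat.mul_le_mul hn (Nat.mul_le_mul hn hn)

/-- the consequences of the bound for the clusters -/
lemma repels {V : Type} [TopologicalSpace V] [T2Space V] [MeasurableSpace V] [BorelSpace V]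
    {X : V → ℕ → ℝ}
    (hc : ∀ k, Continuous fun φ => X φ k) (hm : ∀ φ, Monotone (X φ))
    (ht : ∀ φ, Tendsto (X φ) atTop atTop) (P : Measure V) [IsFiniteMeasure P] {K : Set V}
    (hK : IsCompact K) (hPK : ∀ᵐ φ ∂P, φ ∈ K)
    (h : ∀ j, ∃ C : ℝ, 0 ≤ C ∧ ∀ s : ℝ, 0 ≤ s →
      P {φ | X φ (j + 2) - X φ j ≤ s} ≤ ENNReal.ofReal (C * s ^ 5)) : TripleRepels X P := by
  classical
  choose C hC hCs using h
  have hmeas : ∀ k, Measurable fun φ => X φ k := fun k => (hc k).measurable
  have hmd : ∀ j, Measurable fun φ => X φ (j + 2) - X φ j := fun j =>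
    (hmeas (j + 2)).sub (hmeas j)
  have hind : ∀ (s : ℝ) (φ : V) (j : ℕ), (if X φ (j + 2) - X φ j ≤ s then (1 : ℝ≥0∞) else 0) =
      {φ | X φ (j + 2) - X φ j ≤ s}.indicator (fun _ => (1 : ℝ≥0∞)) φ := by
    intro s φ j
    by_cases h : X φ (j + 2) - X φ j ≤ s
    · rw [if_pos h, indicator_of_mem (show φ ∈ {φ | X φ (j + 2) - X φ j ≤ s} from h)]
    · rw [if_neg h, indicator_of_notMem (show φ ∉ {φ | X φ (j + 2) - X φ j ≤ s} from h)]
  refine ⟨fun j => ⟨C j, fun s hs => hCs j s hs.le⟩, fun j p hp0 hp => ?_, fun T => ?_,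
    fun T => ?_⟩
  · exact Pool.Agent.H992.LR.neg_moment_n P (hmd j) (hC j) (d := 5) (by norm_num) (hCs j) hp0
      (by norm_num; exact hp)
  · obtain ⟨N, hN⟩ := Pool.Agent.H992.LR.count_bound hc hm ht hK T
    refine ⟨∑ j ∈ Finset.range N, C j, fun s hs => ?_⟩
    have hsub : {φ | ∃ j, X φ j ≤ T ∧ X φ (j + 2) - X φ j ≤ s} ≤ᵐ[P]
        (⋃ j ∈ Finset.range N, {φ | X φ (j + 2) - X φ j ≤ s} : Set V) := by
      filter_upwards [hPK] with φ hφ
      rintro ⟨j, hj1, hj2⟩
      refine mem_iUnion₂.2 ⟨j, Finset.mem_range.2 ?_, hj2⟩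
      by_contra hcon
      have h2 : X φ N ≤ X φ j := hm φ (not_lt.1 hcon)
      have h3 := hN φ hφ
      linarith
    refine (measure_mono_ae hsub).trans ((measure_biUnion_finset_le _ _).trans ?_)
    rw [Finset.sum_mul, ENNReal.ofReal_sum_of_nonneg fun j _ => mul_nonneg (hC j) (by positivity)]
    exact Finset.sum_le_sum fun j _ => hCs j s hs.le
  · obtain ⟨N, hN⟩ := Pool.Agent.H992.LR.count_bound hc hm ht hK T
    refine ⟨(|1 / T| * (N * (N * N) : ℕ)) * (∑ j ∈ Finset.range N, C j) * 2 ^ 5, fun s hs => ?_⟩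
    have h2 := Pool.Agent.H992.LR.sum_bound_n P (F := fun j φ => X φ (j + 2) - X φ j) hmd hC hCs
      (|1 / T| * (N * (N * N) : ℕ)) (by positivity) N (2 * s) (by positivity)
      (fun φ => tripleCorrelation T (X φ) (Icc (-s) s ×ˢ Icc (-s) s)) (by
        filter_upwards [hPK] with φ hφ
        simp only [← hind]
        exact triple_le (hm φ) (hN φ hφ) s)
    refine h2.trans (le_of_eq ?_)
    congr 1
    ring

theorem result (M : Type) [MetricSpace M] [CompactSpace M] [ConnectedSpace M] [MeasurableSpace M]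
    [BorelSpace M] (μ : Measure M) (D : Data M) (hD : D.IsSurf μ) (hI : Isothermal D) :
    -- the unfolded levels exist
    (∀ φ : C(M, ℝ), (surf D φ).IsSurf (area μ φ) ∧ ∃ x, IsUnfolded D μ φ x) ∧
    ∀ x : C(M, ℝ) → ℕ → ℝ, (∀ φ, IsUnfolded D μ φ (x φ)) →
      ∀ [MeasurableSpace C(M, ℝ)] [BorelSpace C(M, ℝ)],
      -- general laws, on compact sets of conformal factors
      (∀ (P : Measure C(M, ℝ)) [IsFiniteMeasure P] (S : Set C(M, ℝ)),
        Dense (Submodule.span ℝ S : Set C(M, ℝ)) →
        (∀ h : Fin 5 → C(M, ℝ), (∀ j, h j ∈ S) → Function.Injective h → BoundedAlong P h) →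
          ∀ K : Set C(M, ℝ), IsCompact K → TripleRepels x (P.restrict K)) ∧
      -- random series
      ∀ (Ω : Type) [MeasurableSpace Ω] (Pr : Measure Ω) [IsProbabilityMeasure Pr]
        (ξ : ℕ → Ω → ℝ), (∀ n, Measurable (ξ n)) → iIndepFun ξ Pr → (∀ n ω, |ξ n ω| ≤ 1) →
        (∀ n, ∃ c : ℝ≥0, Pr.map (ξ n) ≤ c • volume) →
        ∀ (φ₀ : C(M, ℝ)) (h : ℕ → C(M, ℝ)), Summable (fun n => ‖h n‖) →
          Dense (Submodule.span ℝ (range h) : Set C(M, ℝ)) →
            TripleRepels x (Pr.map fun ω => φ₀ + ∑' n, ξ n ω • h n) := by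
  obtain ⟨hf, -⟩ := tFin M μ D hD
  have := hf
  have : Nonempty M := inferInstance
  obtain ⟨X, hXc, hXm, hXt, hXe, hX⟩ := Pool.Agent.H992.LR.surf_cl μ D hD hI
  refine ⟨fun φ => ⟨(tConf M μ D hD _
    (Real.continuous_exp.comp φ.continuous) fun x => Real.exp_pos _).1, ?_⟩, ?_⟩
  · obtain ⟨u, lam, h⟩ := Pool.Agent.Y264.QR.tEx M μ D hD inferInstance φ
    exact ⟨fun k => (area μ φ).real univ / (4 * π) * lam k, u, lam,
      ⟨h.eig, h.mono, h.orth, h.total⟩, fun k => rfl⟩
  intro x hx _ _
  have hxX : x = X := by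
    funext φ k
    obtain ⟨u, lam, hu, hxk⟩ := hx φ
    rw [hxk, hXe φ u lam ⟨hu.eig, hu.mono, hu.orth, hu.total⟩ k]
    rfl
  rw [hxX]
  have hmain : ∀ (P : Measure C(M, ℝ)) [IsFiniteMeasure P] (S : Set C(M, ℝ)),
      Dense (Submodule.span ℝ S : Set C(M, ℝ)) →
      (∀ h : Fin 5 → C(M, ℝ), (∀ j, h j ∈ S) → Function.Injective h →
        Pool.Agent.H992.LR.BoundedAlong P h) →
      ∀ K : Set C(M, ℝ), IsCompact K → TripleRepels X (P.restrict K) := by
    intro P _ S hS hP K hK
    refine repels hXc hXm hXt (P.restrict K) hK (ae_restrict_mem hK.measurableSet) fun j => ?_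
    obtain ⟨C, hC, hCs⟩ := hX P S hS hP K hK j
    refine ⟨C, hC, fun s hs => ?_⟩
    rw [Measure.restrict_apply' hK.measurableSet, inter_comm]
    exact hCs s hs
  refine ⟨fun P _ S hS hP K hK => hmain P S hS (fun h hh hi => hP h hh hi) K hK, ?_⟩
  intro Ω _ Pr _ ξ hξm hξi hξb hξd φ₀ h hh hd
  -- coefficients in the unit interval
  obtain ⟨η, hη⟩ : ∃ η : ℕ → Ω → ℝ, η = fun n ω => (ξ n ω + 1) / 2 := ⟨_, rfl⟩
  obtain ⟨g, hg⟩ : ∃ g : ℕ → C(M, ℝ), g = fun n => (2 : ℝ) • h n := ⟨_, rfl⟩
  obtain ⟨ψ, hψ⟩ : ∃ ψ : C(M, ℝ), ψ = φ₀ - ∑' n, h n := ⟨_, rfl⟩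
  have hm2 : Measurable fun t : ℝ => (t + 1) / 2 := by fun_prop
  have hηm : ∀ n, Measurable (η n) := fun n => by
    rw [hη]; exact hm2.comp (hξm n)
  have hηi : iIndepFun η Pr := by
    rw [hη]
    exact hξi.comp (fun _ t => (t + 1) / 2) fun _ => hm2
  have hηb : ∀ n ω, η n ω ∈ Icc (0 : ℝ) 1 := fun n ω => by
    have := abs_le.1 (hξb n ω)
    rw [hη]
    constructor
    · simp only; linarith
    · simp only; linarith
  have hηd : ∀ n, ∃ c : ℝ≥0, Pr.map (η n) ≤ c • volume := by
    intro n
    obtain ⟨c, hc⟩ := hξd n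
    refine ⟨2 * c, ?_⟩
    have h1 := Pool.Agent.H992.LR.law_half hc
    rw [Measure.map_map hm2 (hξm n)] at h1
    rw [hη]
    exact h1
  have hgs : Summable fun n => ‖g n‖ := by
    rw [hg]
    simp only [norm_smul]
    exact hh.mul_left _
  have hser : (fun ω => φ₀ + ∑' n, ξ n ω • h n) = fun ω => ψ + ∑' n, η n ω • g n := by
    funext ω
    have s1 : Summable fun n => ξ n ω • h n := Summable.of_norm_bounded hh fun n => by
      rw [norm_smul, Real.norm_eq_abs]
      have := hξb n ω
      have := norm_nonneg (h n)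
      nlinarith
    have s2 : Summable h := hh.of_norm
    have e1 : ∀ n, η n ω • g n = ξ n ω • h n + h n := by
      intro n
      rw [hη, hg]
      simp only
      rw [smul_smul, div_mul_cancel₀ _ (two_ne_zero), add_smul, one_smul]
    rw [tsum_congr e1, s1.tsum_add s2, hψ]
    abel
  rw [hser]
  obtain ⟨Φ, hΦ⟩ : ∃ Φ : Ω → C(M, ℝ), Φ = fun ω => ψ + ∑' n, η n ω • g n := ⟨_, rfl⟩
  have hηa : ∀ n ω, |η n ω| ≤ 1 := fun n ω => by
    rw [abs_of_nonneg (hηb n ω).1]; exact (hηb n ω).2
  have hΦm : Measurable Φ := by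
    rw [hΦ]
    exact Pool.Agent.H992.LR.series_meas η hηm hηa ψ g hgs
  rw [← hΦ]
  have hfin : IsFiniteMeasure (Pr.map Φ) := by
    have := Measure.isProbabilityMeasure_map (μ := Pr) hΦm.aemeasurable
    infer_instance
  obtain ⟨K, hK⟩ : ∃ K : Set C(M, ℝ),
      K = range fun t : ℕ → Icc (0 : ℝ) 1 => ψ + ∑' n, (t n : ℝ) • g n := ⟨_, rfl⟩
  have hKc : IsCompact K := by
    rw [hK]
    exact Pool.Agent.H992.LR.series_compact ψ g hgs
  have hKΦ : ∀ᵐ φ ∂(Pr.map Φ), φ ∈ K := by
    have h1 : MeasurableSet {φ | φ ∈ K} := hKc.measurableSet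
    refine (ae_map_iff hΦm.aemeasurable h1).2 (Eventually.of_forall fun ω => ?_)
    rw [hK, hΦ]
    exact ⟨fun n => ⟨η n ω, hηb n ω⟩, rfl⟩
  rw [← Measure.restrict_eq_self_of_ae_mem hKΦ]
  refine hmain (Pr.map Φ) (range g) ?_ ?_ K hKc
  · have h1 : Submodule.span ℝ (range h) ≤ Submodule.span ℝ (range g) := by
      refine Submodule.span_le.2 ?_
      rintro _ ⟨n, rfl⟩
      have h2 : h n = (1 / 2 : ℝ) • g n := by
        rw [hg]
        simp only
        rw [smul_smul]
        norm_num
      rw [h2]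
      exact Submodule.smul_mem _ _ (Submodule.subset_span (mem_range_self n))
    exact hd.mono h1
  · intro f hf hinj
    choose J hJ using hf
    have hJi : Function.Injective J := by
      intro j l hjl
      apply hinj
      rw [← hJ j, ← hJ l, hjl]
    have h1 := Pool.Agent.H992.LR.series_bounded Pr η hηm hηi hηb hηd ψ g hgs J hJi
    have h2 : (fun j => g (J j)) = f := funext hJ
    rw [h2] at h1
    rw [hΦ]
    exact h1

end Pool.Agent.Results.MP_a825e8_mp.TripleRepulsion
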